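import Pool.Agent.Lib.Helper67.FCC.FP

/-!
# Groups with finitely many conjugacy classes
-/

namespace Pool.Agent.Lib.Helper67.FCC

open Subgroup

universe u

variable {G : Type u} [Group G]

/-- Finitely many conjugacy classes pass to homomorphic images. -/
theorem finite_of_surjective {H : Type u} [Group H] [hG : Finite (ConjClasses G)] (f : G →* H)
    (hf : Function.Surjective f) : Finite (ConjClasses H) := by
  refine Finite.of_surjective (ConjClasses.map f) ?_
  intro c
  obtain ⟨h, rfl⟩ := ConjClasses.mk_surjective c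
  obtain ⟨g, rfl⟩ := hf h
  exact ⟨ConjClasses.mk g, rfl⟩

/-- Finitely many conjugacy classes pass to subgroups of finite index. -/
theorem finite_of_finiteIndex [hG : Finite (ConjClasses G)] (H : Subgroup G) [H.FiniteIndex] :
    Finite (ConjClasses H) := by
  classical
  have hfinq : Finite (G ⧸ H) := Subgroup.finite_quotient_of_finiteIndex
  -- representatives
  let r : ConjClasses G → G := fun c => Quotient.out c
  have hr : ∀ g : G, IsConj (r (ConjClasses.mk g)) g := fun g => by
    rw [← ConjClasses.mk_eq_mk_iff_isConj]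
    exact Quotient.out_eq (ConjClasses.mk g)
  have hr2 : ∀ g : G, ∃ c : G, c * r (ConjClasses.mk g) * c⁻¹ = g := fun g =>
    isConj_iff.1 (hr g)
  choose c hc using hr2
  let F : H → ConjClasses G × (G ⧸ H) := fun y =>
    (ConjClasses.mk (y : G), QuotientGroup.mk (c (y : G))⁻¹)
  have hF : ∀ y z : H, F y = F z → IsConj y z := by
    intro y z h
    have h1 : ConjClasses.mk (y : G) = ConjClasses.mk (z : G) := congrArg Prod.fst h
    have h2 : (QuotientGroup.mk (c (y : G))⁻¹ : G ⧸ H) = QuotientGroup.mk (c (z : G))⁻¹ :=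
      congrArg Prod.snd h
    rw [QuotientGroup.eq, inv_inv] at h2
    -- `k = c y * (c z)⁻¹ ∈ H` conjugates `z` to `y`
    refine IsConj.symm (isConj_iff.2 ⟨⟨_, h2⟩, ?_⟩)
    apply Subtype.ext
    show (c (y : G) * (c (z : G))⁻¹) * (z : G) * (c (y : G) * (c (z : G))⁻¹)⁻¹ = y
    have h3 := hc (z : G)
    have h4 := hc (y : G)
    rw [← h1] at h3
    calc (c (y : G) * (c (z : G))⁻¹) * (z : G) * (c (y : G) * (c (z : G))⁻¹)⁻¹
        = (c (y : G) * (c (z : G))⁻¹) * (c (z : G) * r (ConjClasses.mk (y : G)) * (c (z : G))⁻¹) *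
          (c (y : G) * (c (z : G))⁻¹)⁻¹ := by rw [h3]
      _ = c (y : G) * r (ConjClasses.mk (y : G)) * (c (y : G))⁻¹ := by group
      _ = y := h4
  let s : ConjClasses H → H := fun d => Quotient.out d
  have hs : ∀ d : ConjClasses H, ConjClasses.mk (s d) = d := fun d => Quotient.out_eq d
  refine Finite.of_injective (fun d => F (s d)) ?_
  intro d d' h
  have := hF _ _ h
  rw [← hs d, ← hs d', ConjClasses.mk_eq_mk_iff_isConj]
  exact this

/-- A normal subgroup is determined by the conjugacy classes it contains. -/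
theorem finite_normal [hG : Finite (ConjClasses G)] :
    {N : Subgroup G | N.Normal}.Finite := by
  classical
  have hinj : Set.InjOn (fun N : Subgroup G => ConjClasses.mk '' (N : Set G))
      {N : Subgroup G | N.Normal} := by
    intro N hN M hM h
    have key : ∀ N M : Subgroup G, M.Normal →
        ConjClasses.mk '' (N : Set G) ⊆ ConjClasses.mk '' (M : Set G) → N ≤ M := by
      intro N M hM h x hx
      obtain ⟨y, hy, hy2⟩ := h ⟨x, hx, rfl⟩
      rw [ConjClasses.mk_eq_mk_iff_isConj] at hy2
      obtain ⟨g, rfl⟩ := isConj_iff.1 hy2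
      exact hM.conj_mem y hy g
    exact le_antisymm (key N M hM h.subset) (key M N hN h.symm.subset)
  exact Set.Finite.of_finite_image (Set.toFinite _) hinj

/-- Every normal subgroup is the normal closure of a finite set. -/
theorem finitelyNormallyGenerated [hG : Finite (ConjClasses G)] (N : Subgroup G) [hN : N.Normal] :
    N.IsFinitelyNormallyGenerated := by
  classical
  let r : ConjClasses G → G := fun c => Quotient.out c
  have hr : ∀ g : G, IsConj (r (ConjClasses.mk g)) g := fun g => by
    rw [← ConjClasses.mk_eq_mk_iff_isConj]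
    exact Quotient.out_eq (ConjClasses.mk g)
  refine ⟨Set.range r ∩ N, (Set.finite_range r).subset Set.inter_subset_left, ?_⟩
  apply le_antisymm
  · exact Subgroup.normalClosure_le_normal Set.inter_subset_right
  · intro x hx
    obtain ⟨g, hg⟩ := isConj_iff.1 (hr x)
    have h1 : r (ConjClasses.mk x) ∈ N := by
      have h2 : ∀ a : G, g * a * g⁻¹ = x → a = g⁻¹ * x * g⁻¹⁻¹ := by
        rintro a rfl
        group
      rw [h2 _ hg]
      exact hN.conj_mem x hx g⁻¹
    have h3 : r (ConjClasses.mk x) ∈ Subgroup.normalClosure (Set.range r ∩ (N : Set G)) :=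
      Subgroup.subset_normalClosure ⟨⟨_, rfl⟩, h1⟩
    rw [← hg]
    exact Subgroup.normalClosure_normal.conj_mem _ h3 g

/-- There is a smallest normal subgroup of finite index. -/
theorem exists_residual [hG : Finite (ConjClasses G)] :
    ∃ R : Subgroup G, R.Normal ∧ R.FiniteIndex ∧
      ∀ L : Subgroup R, L.FiniteIndex → L = ⊤ := by
  classical
  have hfin : {N : Subgroup G | N.Normal ∧ N.FiniteIndex}.Finite :=
    finite_normal.subset fun N hN => hN.1
  let R : Subgroup G := sInf {N : Subgroup G | N.Normal ∧ N.FiniteIndex}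
  have hRn : R.Normal := by
    constructor
    intro x hx g
    rw [Subgroup.mem_sInf] at hx ⊢
    intro N hN
    exact hN.1.conj_mem x (hx N hN) g
  have hRf : R.FiniteIndex := by
    have h1 : R = ⨅ N : {N : Subgroup G | N.Normal ∧ N.FiniteIndex}, (N : Subgroup G) :=
      sInf_eq_iInf' _
    have : Finite {N : Subgroup G | N.Normal ∧ N.FiniteIndex} := hfin
    rw [h1]
    exact Subgroup.finiteIndex_iInf fun N => N.2.2
  refine ⟨R, hRn, hRf, fun L hL => ?_⟩
  -- `L`, seen in `G`, has finite index; so its core contains `R`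
  have h1 : (L.map R.subtype).FiniteIndex := by
    constructor
    rw [Subgroup.index_map_subtype]
    exact mul_ne_zero hL.index_ne_zero hRf.index_ne_zero
  have h2 : (L.map R.subtype).normalCore.FiniteIndex := inferInstance
  have h3 : R ≤ (L.map R.subtype).normalCore := sInf_le ⟨Subgroup.normalCore_normal _, h2⟩
  have h4 : R ≤ L.map R.subtype := h3.trans (Subgroup.normalCore_le _)
  rw [eq_top_iff]
  intro x _
  obtain ⟨y, hy, hy2⟩ := h4 x.2
  have : y = x := Subtype.ext hy2
  rw [← this]; exact hy

/-- A nontrivial group with finitely many conjugacy classes has a simple quotient. -/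
theorem exists_simple_quotient [hG : Finite (ConjClasses G)] [Nontrivial G] :
    ∃ (N : Subgroup G) (_ : N.Normal), IsSimpleGroup (G ⧸ N) := by
  classical
  have hfin : {N : Subgroup G | N.Normal ∧ N ≠ ⊤}.Finite :=
    finite_normal.subset fun N hN => hN.1
  have hne : {N : Subgroup G | N.Normal ∧ N ≠ ⊤}.Nonempty :=
    ⟨⊥, inferInstance, bot_ne_top⟩
  obtain ⟨N, hN⟩ := hfin.exists_maximal hne
  have hNn : N.Normal := hN.prop.1
  refine ⟨N, hNn, ?_⟩
  have hnt : Nontrivial (G ⧸ N) := QuotientGroup.nontrivial_iff.2 hN.prop.2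
  refine ⟨fun K hK => ?_⟩
  have h1 : N ≤ K.comap (QuotientGroup.mk' N) := by
    intro x hx
    show (QuotientGroup.mk' N) x ∈ K
    rw [(QuotientGroup.eq_one_iff x).2 hx |> fun h => (h : (QuotientGroup.mk' N) x = 1)]
    exact one_mem K
  by_cases htop : K.comap (QuotientGroup.mk' N) = ⊤
  · right
    rw [eq_top_iff]
    intro x _
    obtain ⟨g, rfl⟩ := QuotientGroup.mk'_surjective N x
    have : g ∈ K.comap (QuotientGroup.mk' N) := by rw [htop]; exact Subgroup.mem_top g
    exact this
  · left
    have h2 : K.comap (QuotientGroup.mk' N) ≤ N :=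
      hN.le_of_ge ⟨hK.comap _, htop⟩ h1
    rw [eq_bot_iff]
    intro x hx
    obtain ⟨g, rfl⟩ := QuotientGroup.mk'_surjective N x
    have : g ∈ N := h2 hx
    rw [Subgroup.mem_bot]
    exact (QuotientGroup.eq_one_iff g).2 this

/-- The reduction to simple groups. -/
theorem exists_simple [hG : Finite (ConjClasses G)] [hinf : Infinite G]
    [hfp : Group.IsFinitelyPresented G] :
    ∃ (R : Subgroup G) (N : Subgroup R) (_ : N.Normal), R.Normal ∧ R.FiniteIndex ∧
      IsSimpleGroup (R ⧸ N) ∧ Infinite (R ⧸ N) ∧ Group.IsFinitelyPresented (R ⧸ N) ∧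
      Finite (ConjClasses (R ⧸ N)) := by
  obtain ⟨R, hRn, hRf, hR⟩ := exists_residual (G := G)
  have hRfcc : Finite (ConjClasses R) := finite_of_finiteIndex R
  have hRfp : Group.IsFinitelyPresented R := fp_of_finiteIndex R
  have hRinf : Infinite R := by
    by_contra h
    rw [not_infinite_iff_finite] at h
    have h1 : Nat.card R * R.index = Nat.card G := Subgroup.card_mul_index R
    have h2 : Nat.card G = 0 := Nat.card_eq_zero_of_infinite
    rw [h2] at h1
    rcases Nat.mul_eq_zero.1 h1 with h3 | h3
    · exact Nat.card_pos.ne' h3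
    · exact hRf.index_ne_zero h3
  obtain ⟨N, hNn, hNs⟩ := exists_simple_quotient (G := R)
  refine ⟨R, N, hNn, hRn, hRf, hNs, ?_, ?_, ?_⟩
  · by_contra h
    rw [not_infinite_iff_finite] at h
    have h1 : N.FiniteIndex := Subgroup.finiteIndex_of_finite_quotient
    have h2 : N = ⊤ := hR N h1
    have h3 := hNs.toNontrivial
    rw [QuotientGroup.nontrivial_iff] at h3
    exact h3 h2
  · exact Group.IsFinitelyPresented.quotient N (finitelyNormallyGenerated N)
  · exact finite_of_surjective (QuotientGroup.mk' N) (QuotientGroup.mk'_surjective N)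

end Pool.Agent.Lib.Helper67.FCC
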