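import Pool.Agent.Lib.Helper67.FCC.Power

/-!
# Distortion, growth and uniform simplicity
-/

namespace Pool.Agent.Lib.Helper67.FCC

open Subgroup

universe u

variable {G : Type u} [Group G]

/-- `g` is a product of at most `n` elements of `S` and inverses of elements of `S`. -/
def InBall (S : Set G) (n : ℕ) (g : G) : Prop :=
  ∃ l : List G, l.length ≤ n ∧ (∀ x ∈ l, x ∈ S ∨ x⁻¹ ∈ S) ∧ l.prod = g

theorem InBall.mono {S : Set G} {n m : ℕ} {g : G} (h : InBall S n g) (hnm : n ≤ m) :
    InBall S m g := by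
  obtain ⟨l, h1, h2, h3⟩ := h
  exact ⟨l, h1.trans hnm, h2, h3⟩

theorem inBall_one (S : Set G) (n : ℕ) : InBall S n (1 : G) := ⟨[], by simp, by simp, rfl⟩

theorem InBall.mul {S : Set G} {n m : ℕ} {g h : G} (hg : InBall S n g) (hh : InBall S m h) :
    InBall S (n + m) (g * h) := by
  obtain ⟨l, h1, h2, h3⟩ := hg
  obtain ⟨l', h1', h2', h3'⟩ := hh
  refine ⟨l ++ l', ?_, ?_, ?_⟩
  · rw [List.length_append]; omega
  · intro x hx
    rcases List.mem_append.1 hx with h | h
    · exact h2 x h
    · exact h2' x h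
  · rw [List.prod_append, h3, h3']

theorem InBall.inv {S : Set G} {n : ℕ} {g : G} (hg : InBall S n g) : InBall S n g⁻¹ := by
  obtain ⟨l, h1, h2, h3⟩ := hg
  refine ⟨(l.map (fun x => x⁻¹)).reverse, by simpa using h1, ?_, ?_⟩
  · intro x hx
    simp only [List.mem_reverse, List.mem_map] at hx
    obtain ⟨y, hy, rfl⟩ := hx
    rcases h2 y hy with h | h
    · right; simpa using h
    · left; exact h
  · rw [← h3, List.prod_inv_reverse]

theorem InBall.pow {S : Set G} {n : ℕ} {g : G} (hg : InBall S n g) (k : ℕ) :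
    InBall S (k * n) (g ^ k) := by
  induction k with
  | zero => simpa using inBall_one S 0
  | succ k ih =>
    rw [pow_succ]
    exact (ih.mul hg).mono (by ring_nf; omega)

theorem exists_list_of_mem_closure {S : Set G} {g : G} (hg : g ∈ Subgroup.closure S) :
    ∃ l : List G, (∀ x ∈ l, x ∈ S ∨ x⁻¹ ∈ S) ∧ l.prod = g := by
  have h1 : g ∈ Submonoid.closure (S ∪ S⁻¹) := by
    rw [← Subgroup.closure_toSubmonoid]
    exact hg
  obtain ⟨l, h2, h3⟩ := Submonoid.exists_list_of_mem_closure h1
  exact ⟨l, fun x hx => h2 x hx, h3⟩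

theorem exists_inBall {S : Set G} (hS : Subgroup.closure S = ⊤) (g : G) : ∃ n, InBall S n g := by
  have hg : g ∈ Subgroup.closure S := by rw [hS]; exact Subgroup.mem_top g
  obtain ⟨l, h1, h2⟩ := exists_list_of_mem_closure hg
  exact ⟨l.length, l, le_rfl, h1, h2⟩

theorem finite_ball {S : Set G} (hS : S.Finite) (n : ℕ) : {g : G | InBall S n g}.Finite := by
  induction n with
  | zero =>
    refine (Set.finite_singleton (1 : G)).subset ?_
    rintro g ⟨l, h1, _, h3⟩
    have : l = [] := List.length_eq_zero_iff.1 (Nat.le_zero.1 h1)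
    subst this
    exact h3.symm
  | succ n ih =>
    refine (((hS.union hS.inv).image2 (fun a b => a * b) ih).union ih).subset ?_
    rintro g ⟨l, h1, h2, h3⟩
    cases l with
    | nil => right; exact ⟨[], by simp, by simp, h3⟩
    | cons a l =>
      left
      refine ⟨a, h2 a (by simp), l.prod, ⟨l, ?_, fun x hx => h2 x (by simp [hx]), rfl⟩, ?_⟩
      · simpa using h1
      · simpa using h3

/-- Some power `h = g ^ a` is conjugate to `h ^ k` with `k ≥ 2`. -/
theorem exists_conj_pow [hG : Finite (ConjClasses G)] (g : G) :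
    ∃ (a k : ℕ) (t : G), 1 ≤ a ∧ 2 ≤ k ∧ t * g ^ a * t⁻¹ = (g ^ a) ^ k := by
  obtain ⟨i, j, hij, h⟩ := Finite.exists_ne_map_eq_of_infinite
    (fun i : ℕ => ConjClasses.mk (g ^ (2 ^ i)))
  have key : ∀ i j : ℕ, i < j → ConjClasses.mk (g ^ (2 ^ i)) = ConjClasses.mk (g ^ (2 ^ j)) →
      ∃ (a k : ℕ) (t : G), 1 ≤ a ∧ 2 ≤ k ∧ t * g ^ a * t⁻¹ = (g ^ a) ^ k := by
    intro i j hij h
    rw [ConjClasses.mk_eq_mk_iff_isConj] at h
    obtain ⟨t, ht⟩ := isConj_iff.1 h
    refine ⟨2 ^ i, 2 ^ (j - i), t, Nat.one_le_two_pow, ?_, ?_⟩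
    · calc 2 = 2 ^ 1 := rfl
        _ ≤ 2 ^ (j - i) := Nat.pow_le_pow_right (by norm_num) (by omega)
    · rw [ht, ← pow_mul, ← pow_add]
      congr 2
      omega
  rcases lt_or_gt_of_ne hij with h1 | h1
  · exact key i j h1 h
  · exact key j i h1 h.symm

/-- Exponential distortion of cyclic subgroups. -/
theorem distortion [hG : Finite (ConjClasses G)] {S : Set G} (hS : Subgroup.closure S = ⊤)
    (g : G) : ∃ C : ℕ, ∀ n : ℕ, InBall S (C * (Nat.log 2 n + 1)) (g ^ n) := by
  obtain ⟨a, k, t, ha, hk, ht⟩ := exists_conj_pow g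
  obtain ⟨A, hA⟩ := exists_inBall hS (g ^ a)
  obtain ⟨B, hB⟩ := exists_inBall hS t
  obtain ⟨D, hD⟩ := exists_inBall hS g
  have key : ∀ n : ℕ, InBall S ((k * A + 2 * B) * (Nat.log 2 n + 1)) ((g ^ a) ^ n) := by
    intro n
    induction n using Nat.strong_induction_on with
    | _ n ih =>
      by_cases hn : n < k
      · refine (hA.pow n).mono ?_
        calc n * A ≤ k * A := Nat.mul_le_mul_right _ hn.le
          _ ≤ (k * A + 2 * B) * 1 := by omega
          _ ≤ (k * A + 2 * B) * (Nat.log 2 n + 1) := Nat.mul_le_mul_left _ (by omega)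
      · push Not at hn
        have hq : n / k < n := Nat.div_lt_self (by omega) (by omega)
        have hr : n % k < k := Nat.mod_lt _ (by omega)
        have h1 : (g ^ a) ^ n = t * (g ^ a) ^ (n / k) * t⁻¹ * (g ^ a) ^ (n % k) := by
          rw [← conj_pow, ht, ← pow_mul (g ^ a) k, ← pow_add, Nat.div_add_mod]
        have h2 : Nat.log 2 (n / k) + 1 ≤ Nat.log 2 n := by
          have h3 : n / k ≤ n / 2 := Nat.div_le_div_left hk (by norm_num)
          have h4 : Nat.log 2 (n / k) ≤ Nat.log 2 (n / 2) := Nat.log_mono_right h3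
          have h5 : Nat.log 2 (n / 2) = Nat.log 2 n - 1 := Nat.log_div_base 2 n
          have h6 : 1 ≤ Nat.log 2 n := Nat.log_pos (by norm_num) (by omega)
          omega
        rw [h1]
        refine (((hB.mul (ih _ hq)).mul hB.inv).mul (hA.pow (n % k))).mono ?_
        have h3 : n % k * A ≤ k * A := Nat.mul_le_mul_right _ hr.le
        have h4 : (k * A + 2 * B) * (Nat.log 2 (n / k) + 1) ≤ (k * A + 2 * B) * Nat.log 2 n :=
          Nat.mul_le_mul_left _ h2
        have h5 : (k * A + 2 * B) * (Nat.log 2 n + 1) =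
          (k * A + 2 * B) * Nat.log 2 n + (k * A + 2 * B) := by ring
        omega
  refine ⟨(k * A + 2 * B) + a * D, fun n => ?_⟩
  have h1 : g ^ n = (g ^ a) ^ (n / a) * g ^ (n % a) := by
    rw [← pow_mul, ← pow_add, Nat.div_add_mod]
  rw [h1]
  refine ((key (n / a)).mul (hD.pow (n % a))).mono ?_
  have h2 : Nat.log 2 (n / a) ≤ Nat.log 2 n := Nat.log_mono_right (Nat.div_le_self _ _)
  have h3 : n % a * D ≤ a * D := Nat.mul_le_mul_right _ (Nat.mod_lt _ (by omega)).le
  have h4 : (k * A + 2 * B) * (Nat.log 2 (n / a) + 1) ≤ (k * A + 2 * B) * (Nat.log 2 n + 1) :=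
    Nat.mul_le_mul_left _ (by omega)
  have h5 : a * D ≤ a * D * (Nat.log 2 n + 1) := Nat.le_mul_of_pos_right _ (by omega)
  have h6 : (k * A + 2 * B + a * D) * (Nat.log 2 n + 1) =
    (k * A + 2 * B) * (Nat.log 2 n + 1) + a * D * (Nat.log 2 n + 1) := by ring
  omega

/-- exponents with digits `0, 1` in base `k` -/
def ex (k : ℕ) : List Bool → ℕ
  | [] => 0
  | b :: l => (if b then 1 else 0) + k * ex k l

theorem ex_inj {k : ℕ} (hk : 2 ≤ k) : ∀ l l' : List Bool, l.length = l'.length →
    ex k l = ex k l' → l = l' := by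
  intro l
  induction l with
  | nil =>
    intro l' h _
    cases l' with
    | nil => rfl
    | cons b l' => simp at h
  | cons b l ih =>
    intro l' h h2
    cases l' with
    | nil => simp at h
    | cons b' l' =>
      simp only [List.length_cons, Nat.add_right_cancel_iff] at h
      simp only [ex] at h2
      have h3 : (if b then 1 else 0) = (if b' then (1 : ℕ) else 0) := by
        have h4 : ((if b then 1 else 0) + k * ex k l) % k = (if b then (1 : ℕ) else 0) := by
          rw [Nat.add_mul_mod_self_left]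
          exact Nat.mod_eq_of_lt (by split_ifs <;> omega)
        have h5 : ((if b' then 1 else 0) + k * ex k l') % k = (if b' then (1 : ℕ) else 0) := by
          rw [Nat.add_mul_mod_self_left]
          exact Nat.mod_eq_of_lt (by split_ifs <;> omega)
        rw [← h4, ← h5, h2]
      have h6 : ex k l = ex k l' := by
        rw [h3] at h2
        exact Nat.eq_of_mul_eq_mul_left (by omega) (Nat.add_left_cancel h2)
      have h7 : b = b' := by
        cases b <;> cases b' <;> simp_all
      rw [h7, ih l' h h6]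

theorem ex_ball {S : Set G} {h t : G} {k A B : ℕ} (ht : t * h * t⁻¹ = h ^ k) (hA : InBall S A h)
    (hB : InBall S B t) : ∀ l : List Bool, InBall S (l.length * (A + 2 * B)) (h ^ ex k l) := by
  intro l
  induction l with
  | nil => simpa [ex] using inBall_one S 0
  | cons b l ih =>
    have h1 : h ^ ex k (b :: l) = (h ^ (if b then 1 else 0)) * (t * h ^ ex k l * t⁻¹) := by
      rw [← conj_pow, ht, ← pow_mul, ← pow_add]
      rfl
    have h2 : InBall S A (h ^ (if b then 1 else 0)) := by
      cases b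
      · simpa using inBall_one S A
      · simpa using hA
    rw [h1]
    refine (h2.mul ((hB.mul ih).mul hB.inv)).mono ?_
    simp only [List.length_cons]
    ring_nf
    omega

/-- Exponential growth. -/
theorem growth [hG : Finite (ConjClasses G)] {S : Set G} (hSf : S.Finite)
    (hS : Subgroup.closure S = ⊤) {g : G} (hg : ∀ n : ℕ, 0 < n → g ^ n ≠ 1) :
    ∃ c : ℝ, 0 < c ∧ ∀ r : ℕ, Real.exp (c * r) ≤ (Set.ncard {x : G | InBall S r x} : ℝ) := by
  classical
  obtain ⟨a, k, t, ha, hk, ht⟩ := exists_conj_pow g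
  have hinj : ∀ m n : ℕ, (g ^ a) ^ m = (g ^ a) ^ n → m = n := by
    have key : ∀ m n : ℕ, m < n → (g ^ a) ^ m ≠ (g ^ a) ^ n := by
      intro m n hmn h
      have h1 : (g ^ a) ^ (n - m) = 1 := by
        have h2 : (g ^ a) ^ n = (g ^ a) ^ m * (g ^ a) ^ (n - m) := by
          rw [← pow_add]; congr 1; omega
        rw [h2] at h
        exact (mul_eq_left.1 h.symm)
      rw [← pow_mul] at h1
      exact hg _ (Nat.mul_pos ha (by omega)) h1
    intro m n h
    rcases lt_trichotomy m n with h1 | h1 | h1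
    · exact absurd h (key m n h1)
    · exact h1
    · exact absurd h.symm (key n m h1)
  obtain ⟨A, hA⟩ := exists_inBall hS (g ^ a)
  obtain ⟨B, hB⟩ := exists_inBall hS t
  -- `D ≥ 1`
  let D : ℕ := A + 2 * B + 1
  have hcard : ∀ r : ℕ, 2 ^ (r / D) ≤ Set.ncard {x : G | InBall S r x} := by
    intro r
    have h1 : ∀ l : List Bool, l.length = r / D → InBall S r ((g ^ a) ^ ex k l) := by
      intro l hl
      refine (ex_ball ht hA hB l).mono ?_
      rw [hl]
      calc r / D * (A + 2 * B) ≤ r / D * D := Nat.mul_le_mul_left _ (by omega)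
        _ ≤ r := Nat.div_mul_le_self r D
    let F : List.Vector Bool (r / D) → G := fun v => (g ^ a) ^ ex k v.1
    have hF : Function.Injective F := by
      intro v w h
      exact Subtype.ext (ex_inj hk _ _ (v.2.trans w.2.symm) (hinj _ _ h))
    have h2 : Set.range F ⊆ {x : G | InBall S r x} := by
      rintro _ ⟨v, rfl⟩
      exact h1 v.1 v.2
    have h3 := Set.ncard_le_ncard h2 (finite_ball hSf r)
    have h4 : Set.ncard (Set.range F) = 2 ^ (r / D) := by
      rw [← Set.image_univ, Set.ncard_image_of_injective _ hF, Set.ncard_univ,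
        Nat.card_eq_fintype_card, card_vector, Fintype.card_bool]
    rwa [h4] at h3
  have hone : ∀ r : ℕ, 1 ≤ r → 2 ≤ Set.ncard {x : G | InBall S r x} := by
    intro r hr
    -- some generator is nontrivial
    have h1 : ∃ s ∈ S, s ≠ 1 := by
      by_contra hcon
      push Not at hcon
      have h2 : Subgroup.closure S ≤ ⊥ := by
        rw [Subgroup.closure_le]
        intro s hs
        exact Subgroup.mem_bot.2 (hcon s hs)
      rw [hS] at h2
      have h3 : g = 1 := Subgroup.mem_bot.1 (h2 (Subgroup.mem_top g))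
      exact hg 1 one_pos (by rw [h3, one_pow])
    obtain ⟨s, hs, hs1⟩ := h1
    have h2 : ({s, 1} : Set G) ⊆ {x : G | InBall S r x} := by
      rintro x (rfl | rfl)
      · exact ⟨[x], by simpa using hr, by simpa using Or.inl hs, by simp⟩
      · exact inBall_one S r
    have h3 := Set.ncard_le_ncard h2 (finite_ball hSf r)
    rwa [Set.ncard_pair hs1] at h3
  have hD : (0 : ℝ) < D := by positivity
  refine ⟨Real.log 2 / (2 * D), div_pos (Real.log_pos (by norm_num)) (by positivity), fun r => ?_⟩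
  have hexp : ∀ m : ℕ, Real.exp (Real.log 2 * m) = 2 ^ m := by
    intro m
    rw [mul_comm, Real.exp_nat_mul, Real.exp_log (by norm_num)]
  rcases Nat.lt_or_ge r D with hlt | hge
  · rcases Nat.eq_zero_or_pos r with h0 | h0
    · subst h0
      simp only [Nat.cast_zero, mul_zero, Real.exp_zero]
      have h1 := hcard 0
      simp only [Nat.zero_div, pow_zero] at h1
      exact_mod_cast h1
    · have h1 : Real.log 2 / (2 * D) * r ≤ Real.log 2 * (1 : ℕ) := by
        rw [div_mul_eq_mul_div, div_le_iff₀ (by positivity)]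
        have h2 : (r : ℝ) ≤ D := by exact_mod_cast hlt.le
        have h3 : 0 < Real.log 2 := Real.log_pos (by norm_num)
        push_cast
        nlinarith
      calc Real.exp (Real.log 2 / (2 * D) * r) ≤ Real.exp (Real.log 2 * (1 : ℕ)) :=
            Real.exp_le_exp.2 h1
        _ = 2 ^ 1 := hexp 1
        _ = (2 : ℕ) := by norm_num
        _ ≤ _ := by exact_mod_cast hone r h0
  · have h1 : Real.log 2 / (2 * D) * r ≤ Real.log 2 * (r / D : ℕ) := by
      rw [div_mul_eq_mul_div, div_le_iff₀ (by positivity)]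
      have h3 : 0 < Real.log 2 := Real.log_pos (by norm_num)
      have h4 : r ≤ (r / D) * (2 * D) := by
        have h5 := Nat.div_add_mod r D
        have h6 : r % D < D := Nat.mod_lt _ (by omega)
        have h7 : 1 ≤ r / D := Nat.div_pos hge (by omega)
        nlinarith
      have h8 : (r : ℝ) ≤ ((r / D : ℕ) : ℝ) * (2 * D) := by exact_mod_cast h4
      nlinarith
    calc Real.exp (Real.log 2 / (2 * D) * r) ≤ Real.exp (Real.log 2 * (r / D : ℕ)) :=
          Real.exp_le_exp.2 h1
      _ = 2 ^ (r / D) := hexp _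
      _ ≤ _ := by exact_mod_cast hcard r

/-- Uniform simplicity. -/
def UniformlySimple (Q : Type u) [Group Q] : Prop :=
  Nontrivial Q ∧ ∃ K : ℕ, ∀ g h : Q, g ≠ 1 →
    ∃ l : List Q, l.length ≤ K ∧ (∀ x ∈ l, IsConj g x ∨ IsConj g⁻¹ x) ∧ l.prod = h

theorem uniformlySimple [hG : Finite (ConjClasses G)] [hs : IsSimpleGroup G] :
    UniformlySimple G := by
  classical
  refine ⟨hs.toNontrivial, ?_⟩
  have h0 : ∀ g h : G, g ≠ 1 →
      ∃ l : List G, (∀ x ∈ l, IsConj g x ∨ IsConj g⁻¹ x) ∧ l.prod = h := by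
    intro g h hg
    have h1 : Subgroup.normalClosure {g} = ⊤ := by
      rcases hs.eq_bot_or_eq_top_of_normal _ (Subgroup.normalClosure_normal (s := {g})) with h | h
      · exfalso
        apply hg
        rw [← Subgroup.mem_bot, ← h]
        exact Subgroup.subset_normalClosure rfl
      · exact h
    have h2 : h ∈ Subgroup.normalClosure {g} := by rw [h1]; exact Subgroup.mem_top h
    obtain ⟨l, hl1, hl2⟩ := exists_list_of_mem_closure h2
    refine ⟨l, fun x hx => ?_, hl2⟩
    rcases hl1 x hx with h3 | h3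
    · obtain ⟨a, ha, ha2⟩ := Group.mem_conjugatesOfSet_iff.1 h3
      rw [Set.mem_singleton_iff] at ha
      subst ha
      exact Or.inl ha2
    · obtain ⟨a, ha, ha2⟩ := Group.mem_conjugatesOfSet_iff.1 h3
      rw [Set.mem_singleton_iff] at ha
      subst ha
      right
      obtain ⟨c, hc⟩ := isConj_iff.1 ha2
      refine isConj_iff.2 ⟨c, ?_⟩
      rw [← inv_inv x, ← hc]
      group
  -- lengths for representatives
  let r : ConjClasses G → G := fun c => Quotient.out c
  have hr : ∀ g : G, IsConj (r (ConjClasses.mk g)) g := fun g => by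
    rw [← ConjClasses.mk_eq_mk_iff_isConj]
    exact Quotient.out_eq (ConjClasses.mk g)
  have h1 : ∀ p : ConjClasses G × ConjClasses G, ∃ n : ℕ, r p.1 ≠ 1 →
      ∃ l : List G, l.length ≤ n ∧ (∀ x ∈ l, IsConj (r p.1) x ∨ IsConj (r p.1)⁻¹ x) ∧
        l.prod = r p.2 := by
    intro p
    by_cases hp : r p.1 = 1
    · exact ⟨0, fun h => absurd hp h⟩
    · obtain ⟨l, hl1, hl2⟩ := h0 (r p.1) (r p.2) hp
      exact ⟨l.length, fun _ => ⟨l, le_rfl, hl1, hl2⟩⟩
  choose n hn using h1
  obtain ⟨K, hK⟩ : ∃ K, ∀ p, n p ≤ K := by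
    obtain ⟨K, hK⟩ := (Set.finite_range n).bddAbove
    exact ⟨K, fun p => hK ⟨p, rfl⟩⟩
  refine ⟨K, fun g h hg => ?_⟩
  obtain ⟨u, hu⟩ := isConj_iff.1 (hr g)
  obtain ⟨v, hv⟩ := isConj_iff.1 (hr h)
  have hg1 : r (ConjClasses.mk g) ≠ 1 := by
    intro h1
    rw [h1] at hu
    apply hg
    rw [← hu]; group
  obtain ⟨l, hl1, hl2, hl3⟩ := hn (ConjClasses.mk g, ConjClasses.mk h) hg1
  refine ⟨l.map (MulAut.conj v), ?_, ?_, ?_⟩
  · rw [List.length_map]
    exact hl1.trans (hK _)
  · intro x hx
    obtain ⟨y, hy, rfl⟩ := List.mem_map.1 hx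
    have hyx : IsConj y (MulAut.conj v y) := isConj_iff.2 ⟨v, rfl⟩
    rcases hl2 y hy with h2 | h2
    · exact Or.inl (((hr g).symm.trans h2).trans hyx)
    · right
      have h3 : IsConj g⁻¹ (r (ConjClasses.mk g))⁻¹ := by
        refine (isConj_iff.2 ⟨u, ?_⟩ : IsConj (r (ConjClasses.mk g))⁻¹ g⁻¹).symm
        have h4 : ∀ a : G, u * a * u⁻¹ = g → u * a⁻¹ * u⁻¹ = g⁻¹ := by
          rintro a rfl
          group
        exact h4 _ hu
      exact (h3.trans h2).trans hyx
  · rw [← map_list_prod, hl3]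
    exact hv

end Pool.Agent.Lib.Helper67.FCC
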