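import Mathlib

/-!
# Finite index subgroups of finitely presented groups are finitely presented
-/

namespace Pool.Agent.Lib.Helper67.FCC

open Subgroup

universe u

/-- A finitely generated free group is finitely presented. -/
theorem fp_of_free {F : Type u} [Group F] [IsFreeGroup F] [hF : Group.FG F] :
    Group.IsFinitelyPresented F := by
  classical
  obtain ⟨ι, ⟨b⟩⟩ := (inferInstance : IsFreeGroup F)
  -- the basis is finite
  have hfin : Finite ι := by
    have hfg : Group.FG (FreeGroup ι) :=
      Group.fg_of_surjective (f := (b.repr : F →* FreeGroup ι)) b.repr.surjective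
    let f : FreeGroup ι →* Multiplicative (ι →₀ ℤ) :=
      FreeGroup.lift fun i => Multiplicative.ofAdd (Finsupp.single i 1)
    have hf : Function.Surjective f := by
      rw [← MonoidHom.range_eq_top, eq_top_iff]
      intro x _
      have key : ∀ y : ι →₀ ℤ, Multiplicative.ofAdd y ∈ f.range := by
        intro y
        induction y using Finsupp.induction_linear with
        | zero => exact one_mem _
        | add y z hy hz => exact mul_mem hy hz
        | single i n =>
          have h1 : Multiplicative.ofAdd (Finsupp.single i (1 : ℤ)) ∈ f.range :=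
            ⟨FreeGroup.of i, by simp [f]⟩
          have h2 := zpow_mem h1 n
          have h3 : (Multiplicative.ofAdd (Finsupp.single i (1 : ℤ)) : Multiplicative (ι →₀ ℤ)) ^ n
              = Multiplicative.ofAdd (Finsupp.single i n) := by
            rw [← ofAdd_zsmul]
            congr 1
            simp
          rwa [h3] at h2
      exact key x.toAdd
    have hfg2 : Group.FG (Multiplicative (ι →₀ ℤ)) := Group.fg_of_surjective hf
    have hfg3 : AddGroup.FG (ι →₀ ℤ) := AddGroup.fg_iff_mul_fg.2 hfg2
    have hfg4 : Module.Finite ℤ (ι →₀ ℤ) := Module.Finite.iff_addGroup_fg.2 hfg3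
    exact Module.Finite.finite_basis (Finsupp.basisSingleOne : Module.Basis ι ℤ (ι →₀ ℤ))
  exact Group.IsFinitelyPresented.equiv (b.repr.symm)

/-- A finite index subgroup of a finitely presented group is finitely presented. -/
theorem fp_of_finiteIndex {G : Type u} [Group G] [hG : Group.IsFinitelyPresented G]
    (H : Subgroup G) [H.FiniteIndex] : Group.IsFinitelyPresented H := by
  classical
  obtain ⟨n, φ, hφ, T, hT, hTφ⟩ := hG.out
  let K : Subgroup (FreeGroup (Fin n)) := H.comap φ
  have hK : K.FiniteIndex := by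
    constructor
    rw [Subgroup.index_comap_of_surjective H hφ]
    exact Subgroup.FiniteIndex.index_ne_zero
  have hKfg : Group.FG K := Subgroup.fg_of_index_ne_zero K
  have hKfp : Group.IsFinitelyPresented K := fp_of_free
  let ψ : K →* H := (φ.comp K.subtype).codRestrict H (fun x => x.2)
  have hψ : Function.Surjective ψ := by
    rintro ⟨h, hh⟩
    obtain ⟨x, rfl⟩ := hφ h
    exact ⟨⟨x, hh⟩, rfl⟩
  have hTK : ∀ (g : FreeGroup (Fin n)), ∀ t ∈ T, g * t * g⁻¹ ∈ φ.ker := by
    intro g t ht
    have h1 : t ∈ φ.ker := hTφ ▸ Subgroup.subset_normalClosure ht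
    exact (MonoidHom.normal_ker φ).conj_mem t h1 g
  have hker : φ.ker ≤ K := by
    intro x hx
    show φ x ∈ H
    rw [MonoidHom.mem_ker.1 hx]
    exact one_mem H
  -- a finite set of coset representatives
  have hfinq : Finite (FreeGroup (Fin n) ⧸ K) := Subgroup.finite_quotient_of_finiteIndex
  let ρ : FreeGroup (Fin n) ⧸ K → FreeGroup (Fin n) := fun q => (Quotient.out q)⁻¹
  let T' : Set K := {y | ∃ q : FreeGroup (Fin n) ⧸ K, ∃ t ∈ T, (y : FreeGroup (Fin n)) =
    ρ q * t * (ρ q)⁻¹}
  have hT' : T'.Finite := by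
    have h1 : (Set.image2 (fun (q : FreeGroup (Fin n) ⧸ K) (t : FreeGroup (Fin n)) =>
        ρ q * t * (ρ q)⁻¹) Set.univ T).Finite := Set.Finite.image2 _ Set.finite_univ hT
    refine Set.Finite.of_finite_image (f := (Subtype.val : K → FreeGroup (Fin n)))
      (h1.subset ?_) Subtype.val_injective.injOn
    rintro _ ⟨y, ⟨q, t, ht, hy⟩, rfl⟩
    exact ⟨q, trivial, t, ht, hy.symm⟩
  refine Group.IsFinitelyPresented.of_surjective ψ hψ ⟨T', hT', ?_⟩
  apply le_antisymm
  · apply Subgroup.normalClosure_le_normal
    rintro y ⟨q, t, ht, hy⟩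
    show y ∈ ψ.ker
    rw [MonoidHom.mem_ker]
    apply Subtype.ext
    show φ (y : FreeGroup (Fin n)) = 1
    rw [hy]
    exact MonoidHom.mem_ker.1 (hTK _ t ht)
  · -- every element of the kernel lies in the normal closure of `T'` in `K`
    have key : φ.ker ≤ (Subgroup.normalClosure T').map K.subtype := by
      rw [← hTφ, Subgroup.normalClosure, Subgroup.closure_le]
      intro x hx
      obtain ⟨t, ht, hx2⟩ := Group.mem_conjugatesOfSet_iff.1 hx
      obtain ⟨g, rfl⟩ := isConj_iff.1 hx2
      -- write `g = k * ρ q`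
      let q : FreeGroup (Fin n) ⧸ K := QuotientGroup.mk g⁻¹
      have h1 : (Quotient.out q : FreeGroup (Fin n))⁻¹ * g⁻¹ ∈ K := by
        rw [← QuotientGroup.eq]
        exact Quotient.out_eq q
      have h2 : g * Quotient.out q ∈ K := by
        have := K.inv_mem h1
        rwa [mul_inv_rev, inv_inv, inv_inv] at this
      have h3 : ρ q * t * (ρ q)⁻¹ ∈ K := hker (hTK _ t ht)
      have h4 : (⟨ρ q * t * (ρ q)⁻¹, h3⟩ : K) ∈ Subgroup.normalClosure T' :=
        Subgroup.subset_normalClosure ⟨q, t, ht, rfl⟩
      have h5 := Subgroup.normalClosure_normal.conj_mem _ h4 ⟨g * Quotient.out q, h2⟩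
      refine ⟨_, h5, ?_⟩
      show (g * Quotient.out q) * (ρ q * t * (ρ q)⁻¹) * (g * Quotient.out q)⁻¹ = g * t * g⁻¹
      simp only [ρ]
      group
    intro y hy
    have h1 : (y : FreeGroup (Fin n)) ∈ φ.ker := by
      rw [MonoidHom.mem_ker]
      have := MonoidHom.mem_ker.1 hy
      exact congrArg Subtype.val this
    obtain ⟨z, hz, hz2⟩ := key h1
    have : z = y := Subtype.ext hz2
    rw [← this]
    exact hz

end Pool.Agent.Lib.Helper67.FCC
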