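import Pool.Agent.Lib.Helper67.FCC.Classes

/-!
# Power maps on conjugacy classes
-/

namespace Pool.Agent.Lib.Helper67.FCC

open Subgroup

universe u

variable {G : Type u} [Group G]

/-- the power map on conjugacy classes -/
def pw (m : ℕ) : ConjClasses G → ConjClasses G :=
  Quotient.map (fun g : G => g ^ m) (fun a b (h : IsConj a b) => h.pow m)

@[simp] theorem pw_mk (m : ℕ) (g : G) : pw m (ConjClasses.mk g) = ConjClasses.mk (g ^ m) := rfl

theorem pw_pw (m n : ℕ) (c : ConjClasses G) : pw m (pw n c) = pw (m * n) c := by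
  obtain ⟨g, rfl⟩ := ConjClasses.mk_surjective c
  simp only [pw_mk]
  rw [← pow_mul, mul_comm]

/-- There is `M` such that all power maps act as permutations on the image of `pw M`. -/
theorem exists_recurrent [hG : Finite (ConjClasses G)] :
    ∃ M : ℕ, 1 ≤ M ∧ ∀ m : ℕ, 1 ≤ m → pw m '' Set.range (pw M : ConjClasses G → ConjClasses G) =
      Set.range (pw M : ConjClasses G → ConjClasses G) := by
  classical
  let P : ℕ → Prop := fun k => ∃ M : ℕ, 1 ≤ M ∧
    (Set.range (pw M : ConjClasses G → ConjClasses G)).ncard = k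
  have hP : ∃ k, P k := ⟨_, 1, le_rfl, rfl⟩
  obtain ⟨M, hM, hM2⟩ := Nat.find_spec hP
  refine ⟨M, hM, fun m hm => ?_⟩
  have h1 : pw m '' Set.range (pw M : ConjClasses G → ConjClasses G) =
      Set.range (pw (m * M) : ConjClasses G → ConjClasses G) := by
    rw [← Set.range_comp]
    congr 1
    funext c
    exact pw_pw m M c
  have h2 : Set.range (pw (m * M) : ConjClasses G → ConjClasses G) ⊆
      Set.range (pw M : ConjClasses G → ConjClasses G) := by
    rintro _ ⟨c, rfl⟩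
    refine ⟨pw m c, ?_⟩
    rw [pw_pw, mul_comm]
  rw [h1]
  refine Set.eq_of_subset_of_ncard_le h2 ?_ (Set.toFinite _)
  rw [hM2]
  exact Nat.find_min' hP ⟨m * M, Nat.one_le_iff_ne_zero.2 (by positivity), rfl⟩

/-- Uniform version: roots inside the recurrent set and `h ~ h ^ (m ^ e)`. -/
theorem exists_recurrent' [hG : Finite (ConjClasses G)] :
    ∃ (M e : ℕ) (A : Set G), 1 ≤ M ∧ 1 ≤ e ∧ (∀ g : G, g ^ M ∈ A) ∧
      (∀ h ∈ A, ∀ m : ℕ, 1 ≤ m → ∃ y ∈ A, y ^ m = h) ∧
      (∀ h ∈ A, ∀ m : ℕ, 1 ≤ m → IsConj h (h ^ (m ^ e))) := by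
  classical
  obtain ⟨M, hM, hMs⟩ := exists_recurrent (G := G)
  let E : Set (ConjClasses G) := Set.range (pw M : ConjClasses G → ConjClasses G)
  have hEfin : Finite E := Set.toFinite _
  -- permutations of `E`
  have hmaps : ∀ m : ℕ, 1 ≤ m → Set.MapsTo (pw m) E E := by
    intro m hm c hc
    have : pw m c ∈ pw m '' E := ⟨c, hc, rfl⟩
    rwa [hMs m hm] at this
  have hbij : ∀ m : ℕ, 1 ≤ m → Set.BijOn (pw m) E E := by
    intro m hm
    have hsurj : Set.SurjOn (pw m) E E := by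
      intro c hc
      have h1 : c ∈ pw m '' E := by rw [hMs m hm]; exact hc
      exact h1
    exact ⟨hmaps m hm, (Set.toFinite E).injOn_of_encard_image_eq (by rw [hMs m hm]), hsurj⟩
  let σ : ∀ m : ℕ, 1 ≤ m → Equiv.Perm E := fun m hm =>
    Equiv.ofBijective (Set.MapsTo.restrict (pw m) E E (hmaps m hm))
      ((hbij m hm).bijective)
  let e : ℕ := Nat.card (Equiv.Perm E)
  have he : 1 ≤ e := Nat.card_pos
  have hpow : ∀ m : ℕ, ∀ hm : 1 ≤ m, ∀ (k : ℕ) (c : E),
      (((σ m hm) ^ k) c : ConjClasses G) = pw (m ^ k) c := by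
    intro m hm k
    induction k with
    | zero =>
      intro c
      rw [pow_zero, pow_zero]
      obtain ⟨g, hg⟩ := ConjClasses.mk_surjective (c : ConjClasses G)
      rw [← hg, pw_mk, pow_one, hg]
      rfl
    | succ k ih =>
      intro c
      rw [pow_succ', Equiv.Perm.mul_apply]
      show pw m (((σ m hm) ^ k) c : ConjClasses G) = _
      rw [ih, pw_pw, ← pow_succ']
  refine ⟨M, e, {g | ConjClasses.mk g ∈ E}, hM, he, fun g => ⟨ConjClasses.mk g, rfl⟩, ?_, ?_⟩
  · intro h hh m hm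
    obtain ⟨c, hc, hc2⟩ := (hbij m hm).surjOn hh
    obtain ⟨y, rfl⟩ := ConjClasses.mk_surjective c
    rw [pw_mk, ConjClasses.mk_eq_mk_iff_isConj] at hc2
    obtain ⟨t, ht⟩ := isConj_iff.1 hc2
    refine ⟨t * y * t⁻¹, ?_, ?_⟩
    · show ConjClasses.mk (t * y * t⁻¹) ∈ E
      have : ConjClasses.mk (t * y * t⁻¹) = ConjClasses.mk y :=
        (ConjClasses.mk_eq_mk_iff_isConj.2 (isConj_iff.2 ⟨t, rfl⟩)).symm
      rw [this]; exact hc
    · rw [← ht]
      exact conj_pow
  · intro h hh m hm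
    have h1 := hpow m hm e ⟨ConjClasses.mk h, hh⟩
    have h2 : (σ m hm) ^ e = 1 := pow_card_eq_one'
    rw [h2] at h1
    have h3 : ConjClasses.mk h = pw (m ^ e) (ConjClasses.mk h) := h1
    rw [pw_mk, ConjClasses.mk_eq_mk_iff_isConj] at h3
    exact h3

end Pool.Agent.Lib.Helper67.FCC
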