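import Mathlib

/-!
# Homomorphisms from the additive group of rational numbers
-/

namespace Pool.Agent.Lib.Helper67.FCC

open Nat

universe u

variable {G : Type u} [Group G]

section

variable (y : ℕ → G) (hy : ∀ k, y (k + 1) ^ (k + 1) = y k)

include hy in
theorem chain_aux (k j : ℕ) : ∃ c : ℕ, k ! * c = (k + j)! ∧ y k = y (k + j) ^ c := by
  induction j with
  | zero => exact ⟨1, by simp, by simp⟩
  | succ j ih =>
    obtain ⟨c, h1, h2⟩ := ih
    refine ⟨(k + j + 1) * c, ?_, ?_⟩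
    · rw [← add_assoc, Nat.factorial_succ, ← h1]; ring
    · rw [h2, ← hy (k + j), ← pow_mul]
      rfl

include hy in
theorem chain {k l : ℕ} (h : k ≤ l) : ∃ c : ℕ, k ! * c = l ! ∧ y k = y l ^ c := by
  obtain ⟨j, rfl⟩ := Nat.exists_eq_add_of_le h
  exact chain_aux y hy k j

include hy in
theorem rel_unique {q : ℚ} {k l : ℕ} {n m : ℤ} (h1 : q * k ! = n) (h2 : q * l ! = m) :
    y k ^ n = y l ^ m := by
  have key : ∀ {k l : ℕ} {n m : ℤ}, q * k ! = n → q * l ! = m → k ≤ l → y k ^ n = y l ^ m := by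
    intro k l n m h1 h2 hkl
    obtain ⟨c, hc, hc2⟩ := chain y hy hkl
    have h3 : (m : ℚ) = (c : ℚ) * n := by
      rw [← h1, ← h2, ← hc]; push_cast; ring
    have h4 : m = c * n := by exact_mod_cast h3
    rw [hc2, h4, zpow_mul, zpow_natCast]
  rcases le_total k l with h | h
  · exact key h1 h2 h
  · exact (key h2 h1 h).symm

theorem rel_total (q : ℚ) : ∃ (k : ℕ) (n : ℤ), q * k ! = n := by
  refine ⟨q.den, q.num * (q.den - 1)!, ?_⟩
  have h1 : (q.den)! = q.den * (q.den - 1)! := by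
    rw [Nat.mul_factorial_pred q.den_ne_zero]
  rw [h1]
  push_cast
  have h2 : (q.den : ℚ) ≠ 0 := by exact_mod_cast q.den_ne_zero
  calc q * (q.den * ((q.den - 1)! : ℚ)) = (q * q.den) * ((q.den - 1)! : ℚ) := by ring
    _ = q.num * ((q.den - 1)! : ℚ) := by rw [Rat.mul_den_eq_num]

theorem rel_mono {q : ℚ} {k l : ℕ} {n : ℤ} (h : q * k ! = n) (hkl : k ≤ l) :
    ∃ m : ℤ, q * l ! = m := by
  obtain ⟨c, hc⟩ := Nat.factorial_dvd_factorial hkl
  refine ⟨n * c, ?_⟩
  rw [hc]
  push_cast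
  rw [← h]; ring

include hy in
/-- A chain of roots gives a homomorphism from the rationals. -/
theorem exists_hom : ∃ ψ : Multiplicative ℚ →* G, ψ (Multiplicative.ofAdd 1) = y 0 := by
  choose k n hkn using rel_total
  have key : ∀ (q : ℚ) (l : ℕ) (m : ℤ), q * l ! = m → y (k q) ^ (n q) = y l ^ m :=
    fun q l m h => rel_unique y hy (hkn q) h
  refine ⟨MonoidHom.mk' (fun q => y (k q.toAdd) ^ (n q.toAdd)) ?_, ?_⟩
  · intro a b
    show y (k (a * b).toAdd) ^ (n (a * b).toAdd) = y (k a.toAdd) ^ (n a.toAdd) *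
      y (k b.toAdd) ^ (n b.toAdd)
    obtain ⟨m1, h1⟩ := rel_mono (hkn a.toAdd) (le_max_left (k a.toAdd) (k b.toAdd))
    obtain ⟨m2, h2⟩ := rel_mono (hkn b.toAdd) (le_max_right (k a.toAdd) (k b.toAdd))
    rw [key _ _ m1 h1, key _ _ m2 h2, key (a * b).toAdd (max (k a.toAdd) (k b.toAdd)) (m1 + m2) ?_,
      zpow_add]
    rw [toAdd_mul, add_mul, h1, h2]
    push_cast
    rfl
  · show y (k (1 : ℚ)) ^ (n (1 : ℚ)) = y 0
    rw [key 1 0 1 (by simp), zpow_one]

end

/-- If every element of `A` has roots of all orders in `A`, then every element of `A` is the image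
of `1` under a homomorphism from the rationals. -/
theorem exists_hom_of_roots {A : Set G} (hA : ∀ h ∈ A, ∀ m : ℕ, 1 ≤ m → ∃ y ∈ A, y ^ m = h)
    {h : G} (hh : h ∈ A) : ∃ ψ : Multiplicative ℚ →* G, ψ (Multiplicative.ofAdd 1) = h := by
  classical
  choose! r hr1 hr2 using hA
  let y : ℕ → A := fun k => Nat.rec (motive := fun _ => A) ⟨h, hh⟩
    (fun k (x : A) => ⟨r x.1 (k + 1), hr1 x.1 x.2 (k + 1) (by omega)⟩) k
  have hy : ∀ k : ℕ, (y (k + 1)).1 ^ (k + 1) = (y k).1 := by
    intro k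
    exact hr2 (y k).1 (y k).2 (k + 1) (by omega)
  exact exists_hom (fun k => (y k).1) hy

/-- A homomorphism from the rationals which maps `1` to an element of infinite order is
injective. -/
theorem injective_of_infinite_order {ψ : Multiplicative ℚ →* G}
    (h : ∀ n : ℕ, 0 < n → ψ (Multiplicative.ofAdd 1) ^ n ≠ 1) : Function.Injective ψ := by
  rw [injective_iff_map_eq_one]
  intro a ha
  by_contra hne
  have hq : a.toAdd ≠ 0 := fun h0 => hne h0
  -- a nonzero rational has a multiple which is a positive integer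
  have key : ∀ q : ℚ, q ≠ 0 → ψ (Multiplicative.ofAdd q) = 1 → False := by
    intro q hq hψ
    have h1 : ψ (Multiplicative.ofAdd q) ^ (q.num * q.den) = 1 := by
      rw [hψ, one_zpow]
    have h2 : (Multiplicative.ofAdd q) ^ (q.num * q.den) =
        (Multiplicative.ofAdd (1 : ℚ)) ^ ((q.num.natAbs ^ 2 : ℕ)) := by
      rw [← ofAdd_zsmul, ← ofAdd_nsmul]
      congr 1
      rw [zsmul_eq_mul, nsmul_eq_mul, mul_one]
      have h4 : ((q.num.natAbs ^ 2 : ℕ) : ℚ) = (q.num : ℚ) ^ 2 := by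
        have : ((q.num.natAbs ^ 2 : ℕ) : ℤ) = q.num ^ 2 := by
          push_cast
          exact sq_abs _
        rw [← Int.cast_natCast, this]
        push_cast
        rfl
      rw [h4]
      push_cast
      have : (q.num : ℚ) * q.den * q = (q.num : ℚ) * (q * q.den) := by ring
      rw [this, Rat.mul_den_eq_num]
      ring
    rw [← map_zpow, h2, map_pow] at h1
    refine h (q.num.natAbs ^ 2) ?_ h1
    have : q.num ≠ 0 := Rat.num_ne_zero.2 hq
    positivity
  exact key a.toAdd hq ha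

end Pool.Agent.Lib.Helper67.FCC
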